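import Mathlib
import Pool.Agent.H287Z.Cp.Main

set_option autoImplicit false

namespace Pool.Agent.Results.MP_0df558_gt.ABetaCounterexample

open Set

/-- `C_p(X)`: the continuous real functions on `X`, with the subspace topology from the
product `ℝ^X` (pointwise convergence). -/
abbrev Cp (X : Type) [TopologicalSpace X] : Type := {f : X → ℝ // Continuous f}

/-- `U = Z ∖ g⁻¹(0)` for a continuous `g : Z → ℝ`. -/
def IsCozero {Z : Type} [TopologicalSpace Z] (U : Set Z) : Prop :=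
  ∃ g : Z → ℝ, Continuous g ∧ U = (g ⁻¹' {0})ᶜ

/-- For distinct `z, w` some member `U` has `|U ∩ {z, w}| = 1`. -/
def T0Separating {Z : Type} (𝒰 : Set (Set Z)) : Prop :=
  ∀ z w : Z, z ≠ w → ∃ U ∈ 𝒰, (U ∩ {z, w}).encard = 1

/-- Only finitely many members of `𝒱` contain `z`. -/
def PointFiniteAt {Z : Type} (𝒱 : Set (Set Z)) (z : Z) : Prop :=
  {V ∈ 𝒱 | z ∈ V}.Finite

/-- There are subfamilies `𝒰 n` such that for every `z` the family is the union of those
`𝒰 n` that are point-finite at `z`. -/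
def WeaklySigmaPointFinite {Z : Type} (𝒰 : Set (Set Z)) : Prop :=
  ∃ 𝒱 : ℕ → Set (Set Z), (∀ n, 𝒱 n ⊆ 𝒰) ∧
    ∀ z : Z, 𝒰 = ⋃ n ∈ {n : ℕ | PointFiniteAt (𝒱 n) z}, 𝒱 n

/-- Lindelöf `Σ`-space: a cover by compact sets with a countable network modulo it. -/
def IsLindelofSigma (X : Type) [TopologicalSpace X] : Prop :=
  ∃ 𝒞 : Set (Set X), (∀ C ∈ 𝒞, IsCompact C) ∧ ⋃₀ 𝒞 = univ ∧
    ∃ ℱ : Set (Set X), ℱ.Countable ∧
      ∀ C ∈ 𝒞, ∀ U : Set X, IsOpen U → C ⊆ U → ∃ F ∈ ℱ, C ⊆ F ∧ F ⊆ U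

/-- There is a compact Tychonoff space `X` (so also a Lindelöf `Σ`-space) such that no family of
cozero subsets of `C_p(X)` is both `T₀`-separating and weakly `σ`-point-finite. -/
theorem result :
    ∃ (X : Type) (_ : TopologicalSpace X), T35Space X ∧ CompactSpace X ∧ IsLindelofSigma X ∧
      ¬ ∃ 𝒰 : Set (Set (Cp X)), (∀ U ∈ 𝒰, IsCozero U) ∧ T0Separating 𝒰 ∧
        WeaklySigmaPointFinite 𝒰 := by
  refine ⟨Ultrafilter (Set ℝ), inferInstance, inferInstance, inferInstance, ?_, ?_⟩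
  · refine ⟨{univ}, ?_, by simp, {univ}, countable_singleton _, ?_⟩
    · intro C hC
      rw [mem_singleton_iff.1 hC]
      exact isCompact_univ
    · intro C hC U _ hCU
      rw [mem_singleton_iff.1 hC] at hCU ⊢
      exact ⟨univ, rfl, subset_rfl, hCU⟩
  · rintro ⟨𝒰, hco, hsep, 𝒱, h𝒱, hw⟩
    have hD : Cardinal.aleph 1 < Cardinal.mk (Set ℝ) := by
      rw [Cardinal.mk_set, Cardinal.mk_real]
      exact lt_of_le_of_lt Cardinal.aleph_one_le_continuum (Cardinal.cantor _)
    refine Pool.Agent.H287Z.Cp.not_pointCountable hD 𝒰 hco ?_ ?_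
    · intro z w hzw
      obtain ⟨U, hU, h⟩ := hsep z w hzw
      refine ⟨U, hU, ?_⟩
      by_cases hz : z ∈ U <;> by_cases hw' : w ∈ U
      · exfalso
        rw [inter_eq_right.2 (insert_subset hz (singleton_subset_iff.2 hw')),
          encard_pair hzw] at h
        exact absurd h (by decide)
      · exact Or.inl ⟨hz, hw'⟩
      · exact Or.inr ⟨hw', hz⟩
      · exfalso
        have h0 : U ∩ {z, w} = ∅ := by
          ext x
          simp only [mem_inter_iff, mem_insert_iff, mem_singleton_iff, mem_empty_iff_false,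
            iff_false, not_and, not_or]
          intro hx
          exact ⟨fun e => hz (e ▸ hx), fun e => hw' (e ▸ hx)⟩
        rw [h0, encard_empty] at h
        exact zero_ne_one h
    · intro z
      have h1 : (⋃ n ∈ {n : ℕ | PointFiniteAt (𝒱 n) z}, {V ∈ 𝒱 n | z ∈ V}).Countable :=
        (to_countable _).biUnion fun n hn => Set.Finite.countable hn
      refine h1.mono ?_
      rintro U ⟨hU, hz⟩
      rw [hw z] at hU
      simp only [mem_iUnion] at hU ⊢
      obtain ⟨n, hn, hU⟩ := hU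
      exact ⟨n, hn, hU, hz⟩

end Pool.Agent.Results.MP_0df558_gt.ABetaCounterexample
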